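import Pool.Agent.Helper95.PW.Stmts

/-! # Row MOM -/

set_option autoImplicit false

namespace Pool.Agent.Helper95.PW

open MeasureTheory Filter

/-! ### linearity in the cut off function -/

theorem mom_cd {f : R3 → ℝ} (hf : ContDiff ℝ (⊤ : ℕ∞) f) (i : Fin 3) :
    ContDiff ℝ (⊤ : ℕ∞) (pd i f) := by
  unfold pd
  exact (hf.fderiv_right (m := (⊤ : ℕ∞)) (by exact_mod_cast le_top)).clm_apply contDiff_const

theorem mom_pd_sub {f g : R3 → ℝ} (hf : ContDiff ℝ (⊤ : ℕ∞) f) (hg : ContDiff ℝ (⊤ : ℕ∞) g)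
    (i : Fin 3) : pd i (fun y => f y - g y) = fun y => pd i f y - pd i g y := by
  funext y
  unfold pd
  have h1 : DifferentiableAt ℝ f y := hf.contDiffAt.differentiableAt (by simp)
  have h2 : DifferentiableAt ℝ g y := hg.contDiffAt.differentiableAt (by simp)
  rw [fderiv_fun_sub h1 h2]
  rfl

theorem mom_lap_sub {f g : R3 → ℝ} (hf : ContDiff ℝ (⊤ : ℕ∞) f) (hg : ContDiff ℝ (⊤ : ℕ∞) g)
    (y : R3) : lap (fun y => f y - g y) y = lap f y - lap g y := by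
  unfold lap
  rw [← Finset.sum_sub_distrib]
  refine Finset.sum_congr rfl fun i _ => ?_
  rw [mom_pd_sub hf hg, mom_pd_sub (mom_cd hf i) (mom_cd hg i)]

theorem mom_PG_sub {n : ℕ} {f g : R3 → ℝ} (hf : ContDiff ℝ (⊤ : ℕ∞) f)
    (hg : ContDiff ℝ (⊤ : ℕ∞) g) (φ : Wf n) (G : Fin n → Fin 3 → Wf n) (s : Fin n → Fin 2)
    (x : Cf n) :
    PG (fun y => f y - g y) φ G s x = PG f φ G s x - PG g φ G s x := by
  unfold PG
  rw [← Finset.sum_sub_distrib]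
  refine Finset.sum_congr rfl fun k _ => ?_
  rw [mom_lap_sub hf hg]
  have h : ∑ i, pd i (fun y => f y - g y) (x k) * G k i s x =
      ∑ i, pd i f (x k) * G k i s x - ∑ i, pd i g (x k) * G k i s x := by
    rw [← Finset.sum_sub_distrib]
    refine Finset.sum_congr rfl fun i _ => ?_
    rw [mom_pd_sub hf hg]
    ring
  rw [h]
  ring

/-! ### square integrability -/

theorem mom_bdd {n : ℕ} {w : R3 → ℝ} {M : ℝ} (hw : Continuous w) (hM : ∀ y, |w y| ≤ M)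
    (k : Fin n) {f : Cf n → ℝ} (hf : MemLp f 2) :
    MemLp (fun x : Cf n => w (x k) * f x) 2 := by
  have h1 : MemLp (fun x : Cf n => w (x k)) ⊤ := by
    refine memLp_top_of_bound ?_ M ?_
    · exact (hw.comp (continuous_apply k)).aestronglyMeasurable
    · exact Filter.Eventually.of_forall fun x => by
        rw [Real.norm_eq_abs]
        exact hM _
  exact MemLp.mul (p := ⊤) (q := 2) (r := 2) hf h1

theorem mom_lap_bd {g : R3 → ℝ} {K r : ℝ} (hS : Scale g K r) (y : R3) :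
    |lap g y / 2| ≤ 3 * (K / r) / 2 := by
  unfold lap
  rw [abs_div, abs_of_pos (by norm_num : (0:ℝ) < 2)]
  refine div_le_div_of_nonneg_right ?_ (by norm_num)
  refine (Finset.abs_sum_le_sum_abs _ _).trans ?_
  rw [Fin.sum_univ_three]
  linarith [hS.d2 0 0 y, hS.d2 1 1 y, hS.d2 2 2 y]

theorem mom_lap_ct {g : R3 → ℝ} (hg : ContDiff ℝ (⊤ : ℕ∞) g) :
    Continuous (fun y => lap g y / 2) := by
  unfold lap
  refine Continuous.div_const ?_ _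
  exact continuous_finsetSum _ fun i _ => (mom_cd (mom_cd hg i) i).continuous

theorem mom_mem {n : ℕ} {g : R3 → ℝ} {K r : ℝ} (hS : Scale g K r) {φ : Wf n}
    {G : Fin n → Fin 3 → Wf n} (hφ : ∀ s, MemLp (φ s) 2) (hG : ∀ k i s, MemLp (G k i s) 2)
    (s : Fin n → Fin 2) : MemLp (PG g φ G s) 2 := by
  unfold PG
  refine memLp_finsetSum _ fun k _ => ?_
  refine MemLp.add ?_ ?_
  · refine memLp_finsetSum _ fun i _ => ?_
    exact mom_bdd (mom_cd hS.sm i).continuous (hS.d1 i) k (hG k i s)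
  · exact mom_bdd (mom_lap_ct hS.sm) (mom_lap_bd hS) k (hφ s)

theorem mom_four {n : ℕ} {u a b c d : Wf n} (ha : ∀ s, MemLp (a s) 2) (hb : ∀ s, MemLp (b s) 2)
    (hc : ∀ s, MemLp (c s) 2) (hd : ∀ s, MemLp (d s) 2)
    (h : ∀ s x, u s x = a s x + b s x + c s x + d s x) :
    sq u ≤ 4 * (sq a + sq b + sq c + sq d) := by
  unfold sq
  rw [← Finset.sum_add_distrib, ← Finset.sum_add_distrib, ← Finset.sum_add_distrib,
    Finset.mul_sum]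
  refine Finset.sum_le_sum fun s _ => ?_
  have ia := (ha s).integrable_sq
  have ib := (hb s).integrable_sq
  have ic := (hc s).integrable_sq
  have id' := (hd s).integrable_sq
  have e1 := integral_add ((ia.add ib).add ic) id'
  have e2 := integral_add (ia.add ib) ic
  have e3 := integral_add ia ib
  simp only [Pi.add_apply] at e1 e2
  rw [← e3, ← e2, ← e1, ← integral_const_mul]
  refine integral_mono_of_nonneg (Filter.Eventually.of_forall fun x => sq_nonneg _)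
    ((((ia.add ib).add ic).add id').const_mul 4) (Filter.Eventually.of_forall fun x => ?_)
  show u s x ^ 2 ≤ 4 * (a s x ^ 2 + b s x ^ 2 + c s x ^ 2 + d s x ^ 2)
  rw [h s x]
  nlinarith [sq_nonneg (a s x - b s x), sq_nonneg (a s x - c s x), sq_nonneg (a s x - d s x),
    sq_nonneg (b s x - c s x), sq_nonneg (b s x - d s x), sq_nonneg (c s x - d s x)]

theorem mom_sq4 {u a b c d : ℝ} (hu : 0 ≤ u) (h : u ≤ 4 * (a + b + c + d)) :
    u ^ 2 ≤ 64 * (a ^ 2 + b ^ 2 + c ^ 2 + d ^ 2) := by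
  have h1 : u ^ 2 ≤ (4 * (a + b + c + d)) ^ 2 := pow_le_pow_left₀ hu h 2
  nlinarith [sq_nonneg (a - b), sq_nonneg (a - c), sq_nonneg (a - d),
    sq_nonneg (b - c), sq_nonneg (b - d), sq_nonneg (c - d)]

theorem mom_sq0 {n : ℕ} (u : Wf n) : 0 ≤ sq u :=
  Finset.sum_nonneg fun _ _ => integral_nonneg fun _ => sq_nonneg _

/-! ### the numbers -/

theorem mom_r2 {x : ℝ} (hx : 1 ≤ x) (ρ : ℝ) : (x ^ (-ρ)) ^ 2 = x ^ (-(2 * ρ)) := by
  have hx0 : 0 ≤ x := by linarith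
  rw [← Real.rpow_natCast, ← Real.rpow_mul hx0]
  congr 1
  push_cast
  ring

theorem mom_r4 {x : ℝ} (hx : 1 ≤ x) (ρ : ℝ) : (x ^ (-ρ)) ^ 4 = x ^ (-(4 * ρ)) := by
  have hx0 : 0 ≤ x := by linarith
  rw [← Real.rpow_natCast, ← Real.rpow_mul hx0]
  congr 1
  push_cast
  ring

theorem mom_div {x : ℝ} (hx : 1 ≤ x) (y ρ : ℝ) : y / x ^ (-ρ) = y * x ^ ρ := by
  have hx0 : 0 ≤ x := by linarith
  rw [Real.rpow_neg hx0, div_inv_eq_mul]

/-- one piece -/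
theorem mom_num {x : ℝ} (hx : 1 ≤ x) {ρ δ ν : ℝ} (hν0 : 0 ≤ ν) (hν : ν ≤ 2 * x ^ δ)
    (h1 : δ + 7 / 3 + 2 * ρ ≤ 466 / 100) (h2 : 2 * δ + 4 * ρ ≤ 466 / 100) :
    ν * (x ^ (7 / 3 : ℝ) / (x ^ (-ρ)) ^ 2 + ν / (x ^ (-ρ)) ^ 4) ≤ 6 * x ^ (466 / 100 : ℝ) := by
  have hx0 : 0 < x := by linarith
  rw [mom_r2 hx, mom_r4 hx, mom_div hx, mom_div hx]
  have e1 : x ^ δ * (x ^ (7 / 3 : ℝ) * x ^ (2 * ρ)) ≤ x ^ (466 / 100 : ℝ) := by
    rw [← Real.rpow_add hx0, ← Real.rpow_add hx0]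
    exact Real.rpow_le_rpow_of_exponent_le hx (by linarith)
  have e2 : x ^ δ * (x ^ δ * x ^ (4 * ρ)) ≤ x ^ (466 / 100 : ℝ) := by
    rw [← Real.rpow_add hx0, ← Real.rpow_add hx0]
    exact Real.rpow_le_rpow_of_exponent_le hx (by linarith)
  have p1 : 0 < x ^ (7 / 3 : ℝ) * x ^ (2 * ρ) :=
    mul_pos (Real.rpow_pos_of_pos hx0 _) (Real.rpow_pos_of_pos hx0 _)
  have p2 : 0 < x ^ (4 * ρ) := Real.rpow_pos_of_pos hx0 _
  have pd : 0 < x ^ δ := Real.rpow_pos_of_pos hx0 _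
  have f1 : ν * (x ^ (7 / 3 : ℝ) * x ^ (2 * ρ)) ≤ 2 * x ^ (466 / 100 : ℝ) := by
    calc ν * (x ^ (7 / 3 : ℝ) * x ^ (2 * ρ)) ≤ (2 * x ^ δ) * (x ^ (7 / 3 : ℝ) * x ^ (2 * ρ)) :=
          mul_le_mul_of_nonneg_right hν p1.le
      _ = 2 * (x ^ δ * (x ^ (7 / 3 : ℝ) * x ^ (2 * ρ))) := by ring
      _ ≤ 2 * x ^ (466 / 100 : ℝ) := by linarith
  have f2 : ν * (ν * x ^ (4 * ρ)) ≤ 4 * x ^ (466 / 100 : ℝ) := by
    calc ν * (ν * x ^ (4 * ρ)) = (ν * ν) * x ^ (4 * ρ) := by ring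
      _ ≤ ((2 * x ^ δ) * (2 * x ^ δ)) * x ^ (4 * ρ) :=
          mul_le_mul_of_nonneg_right (mul_le_mul hν hν hν0 (by positivity)) p2.le
      _ = 4 * (x ^ δ * (x ^ δ * x ^ (4 * ρ))) := by ring
      _ ≤ 4 * x ^ (466 / 100 : ℝ) := by linarith
  rw [mul_add]
  linarith

theorem mom_nu {x : ℝ} (hx : 1 ≤ x) {ρ δ : ℝ} (hδ : δ = (7 / 3 - 2 * ρ) * (3 / 5)) (h0 : 0 ≤ δ) :
    0 ≤ 1 + (x ^ (7 / 3 : ℝ) * (x ^ (-ρ)) ^ 2) ^ (3 / 5 : ℝ) ∧
    1 + (x ^ (7 / 3 : ℝ) * (x ^ (-ρ)) ^ 2) ^ (3 / 5 : ℝ) ≤ 2 * x ^ δ := by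
  have hx0 : 0 < x := by linarith
  rw [mom_r2 hx, ← Real.rpow_add hx0, ← Real.rpow_mul hx0.le]
  have e : (7 / 3 + -(2 * ρ)) * (3 / 5) = δ := by rw [hδ]; ring
  rw [e]
  have h1 : 1 ≤ x ^ δ := Real.one_le_rpow hx h0
  constructor
  · linarith
  · linarith

/-- row MOM -/
theorem st_MOM (h1 : ST_PIE) (h2 : ST_INN) (h3 : ST_LIM) (h4 : ST_CUT) : ST_MOM := by
  obtain ⟨C₁, hC₁, hP⟩ := h1
  obtain ⟨C₂, hC₂, hI⟩ := h2
  obtain ⟨K, hK, hcut, hcut2⟩ := h4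
  set D : ℝ := 64 * (C₁ * 6 + C₁ * 6 + C₁ * 6 + C₂ * 8) with hD
  have hD0 : 0 < D := by rw [hD]; positivity
  refine ⟨3 * Real.sqrt D, by positivity, ?_⟩
  intro n E φ G hn hGr hE
  have hx : (1:ℝ) ≤ (n : ℝ) := by exact_mod_cast hn
  have hx0 : (0:ℝ) < (n : ℝ) := by linarith
  have hR : ∀ ρ : ℝ, 0 < (n : ℝ) ^ (-ρ) := fun ρ => Real.rpow_pos_of_pos hx0 _
  have hb : ∀ (m : Fin 3) (L : ℕ),
      sq (PG (gm m (L + 1)) φ G) ^ 2 ≤ D * (n : ℝ) ^ (466 / 100 : ℝ) := by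
    intro m L
    have hL : (n : ℝ) ^ (-(13 / 20) : ℝ) ≤ (L : ℝ) + 1 := by
      have h5 : (n : ℝ) ^ (-(13 / 20) : ℝ) ≤ 1 :=
        Real.rpow_le_one_of_one_le_of_nonpos hx (by norm_num)
      have h6 : (0:ℝ) ≤ (L : ℝ) := Nat.cast_nonneg _
      linarith
    have hL0 : (0:ℝ) < (L : ℝ) + 1 := by positivity
    have h21 : (n : ℝ) ^ (-(17 / 20) : ℝ) ≤ (n : ℝ) ^ (-(13 / 20) : ℝ) :=
      Real.rpow_le_rpow_of_exponent_le hx (by norm_num)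
    have h32 : (n : ℝ) ^ (-(19 / 20) : ℝ) ≤ (n : ℝ) ^ (-(17 / 20) : ℝ) :=
      Real.rpow_le_rpow_of_exponent_le hx (by norm_num)
    have s0 := (hcut m _ hL0).1
    have s1 := (hcut m _ (hR (13 / 20))).1
    have s2 := (hcut m _ (hR (17 / 20))).1
    have s3 := (hcut m _ (hR (19 / 20))).1
    have t1 := (hcut2 m _ _ (hR (13 / 20)) hL).1
    have t2 := (hcut2 m _ _ (hR (17 / 20)) h21).1
    have t3 := (hcut2 m _ _ (hR (19 / 20)) h32).1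
    have hsum := mom_four (u := PG (gm m (L + 1)) φ G)
      (mom_mem t1 hGr.lp hGr.lpG) (mom_mem t2 hGr.lp hGr.lpG) (mom_mem t3 hGr.lp hGr.lpG)
      (mom_mem s3 hGr.lp hGr.lpG) (fun s x => by
        rw [mom_PG_sub s0.sm s1.sm, mom_PG_sub s1.sm s2.sm, mom_PG_sub s2.sm s3.sm]
        ring)
    have hs := mom_sq4 (mom_sq0 _) hsum
    -- the four pieces
    have b1 := hP n E φ G m ((n : ℝ) ^ (-(13 / 20) : ℝ)) ((L : ℝ) + 1) n hn hGr hE (hR _) hL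
      (Or.inl rfl)
    have b2 := hP n E φ G m ((n : ℝ) ^ (-(17 / 20) : ℝ)) ((n : ℝ) ^ (-(13 / 20) : ℝ)) _ hn hGr hE
      (hR _) h21 (Or.inr rfl)
    have b3 := hP n E φ G m ((n : ℝ) ^ (-(19 / 20) : ℝ)) ((n : ℝ) ^ (-(17 / 20) : ℝ)) _ hn hGr hE
      (hR _) h32 (Or.inr rfl)
    have b4 := hI n E φ G m ((n : ℝ) ^ (-(19 / 20) : ℝ)) _ hn hGr hE (hR _) rfl
    have c1 : (n : ℝ) * ((n : ℝ) ^ (7 / 3 : ℝ) / ((n : ℝ) ^ (-(13 / 20) : ℝ)) ^ 2 +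
        (n : ℝ) / ((n : ℝ) ^ (-(13 / 20) : ℝ)) ^ 4) ≤ 6 * (n : ℝ) ^ (466 / 100 : ℝ) :=
      mom_num hx (δ := 1) hx0.le (by rw [Real.rpow_one]; linarith) (by norm_num) (by norm_num)
    have n2 := mom_nu hx (ρ := 13 / 20) (δ := 62 / 100) (by norm_num) (by norm_num)
    have c2 := mom_num hx (ρ := 17 / 20) n2.1 n2.2 (by norm_num) (by norm_num)
    have n3 := mom_nu hx (ρ := 17 / 20) (δ := 38 / 100) (by norm_num) (by norm_num)
    have c3 := mom_num hx (ρ := 19 / 20) n3.1 n3.2 (by norm_num) (by norm_num)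
    have n4 := mom_nu hx (ρ := 19 / 20) (δ := 26 / 100) (by norm_num) (by norm_num)
    have c4 := mom_num hx (ρ := 19 / 20) n4.1 n4.2 (by norm_num) (by norm_num)
    have c5 : (1 + ((n : ℝ) ^ (7 / 3 : ℝ) * ((n : ℝ) ^ (-(19 / 20) : ℝ)) ^ 2) ^ (3 / 5 : ℝ)) *
        (n : ℝ) ^ (13 / 3 : ℝ) ≤ 2 * (n : ℝ) ^ (466 / 100 : ℝ) := by
      have e1 : (n : ℝ) ^ (26 / 100 : ℝ) * (n : ℝ) ^ (13 / 3 : ℝ) ≤
          (n : ℝ) ^ (466 / 100 : ℝ) := by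
        rw [← Real.rpow_add hx0]
        exact Real.rpow_le_rpow_of_exponent_le hx (by norm_num)
      have e2 := mul_le_mul_of_nonneg_right n4.2
        (Real.rpow_nonneg hx0.le (13 / 3 : ℝ))
      linarith
    have d1 := mul_le_mul_of_nonneg_left c1 hC₁.le
    have d2 := mul_le_mul_of_nonneg_left c2 hC₁.le
    have d3 := mul_le_mul_of_nonneg_left c3 hC₁.le
    have d4 := mul_le_mul_of_nonneg_left (add_le_add c4 c5) hC₂.le
    rw [← mul_add] at d4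
    rw [hD]
    linarith [b1.trans d1, b2.trans d2, b3.trans d3, b4.trans d4]
  have hlim : ∀ m : Fin 3, sq (fun s x => ∑ k, G k m s x) ≤
      Real.sqrt D * (n : ℝ) ^ (7 / 3 - 1 / 300 : ℝ) := by
    intro m
    have h5 := (h3 n E φ G m hGr).pow 2
    have h6 := le_of_tendsto' h5 (hb m)
    have h7 : (Real.sqrt D * (n : ℝ) ^ (7 / 3 - 1 / 300 : ℝ)) ^ 2 =
        D * (n : ℝ) ^ (466 / 100 : ℝ) := by
      rw [mul_pow, Real.sq_sqrt hD0.le, ← Real.rpow_natCast, ← Real.rpow_mul hx0.le]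
      congr 2
      norm_num
    rw [← h7] at h6
    exact (abs_le_of_sq_le_sq' h6 (by positivity)).2
  unfold mom
  rw [Fin.sum_univ_three]
  linarith [hlim 0, hlim 1, hlim 2]

end Pool.Agent.Helper95.PW
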